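import Pool.Agent.helper53.SP4.Spec

set_option autoImplicit false

namespace Pool.Agent.SP4

section
variable {F : Type} [Field F]

lemma S4Y_addr (u v w : Fin 4 → F) : B u (v + w) = B u v + B u w := by simp [B]; ring
lemma S4Y_smulr (u v : Fin 4 → F) (c : F) : B u (c • v) = c * B u v := by simp [B]; ring
lemma S4Y_addl (u v w : Fin 4 → F) : B (u + v) w = B u w + B v w := by simp [B]; ring
lemma S4Y_smull (u v : Fin 4 → F) (c : F) : B (c • u) v = c * B u v := by simp [B]; ring

lemma S4Y_base {a b v : Fin 4 → F} (h2 : (2 : F) = 0) (hself : ∀ v : Fin 4 → F, B v v = 0) (hab : Pl a b)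
    (hv : v ≠ 0) (hvS : v ∈ Sn a b) :
    ∃ b', Pl v b' ∧ ∀ w, B b w • a + B a w • b = B b' w • v + B v w • b' := by
  obtain ⟨α, β, rfl⟩ := Submodule.mem_span_pair.1 hvS
  obtain ⟨hli, h0⟩ := hab
  rw [LinearIndependent.pair_iff] at hli
  by_cases hα : α = 0
  · subst hα
    have hβ : β ≠ 0 := by
      rintro rfl
      apply hv; simp
    refine ⟨β⁻¹ • a, ⟨?_, ?_⟩, fun w => ?_⟩
    · rw [LinearIndependent.pair_iff]
      intro s t hst
      have h1 : (t * β⁻¹) • a + (s * β) • b = 0 := by
        rw [← hst]; ext i; simp; ring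
      obtain ⟨h3, h4⟩ := hli _ _ h1
      refine ⟨?_, ?_⟩
      · rcases mul_eq_zero.1 h4 with h | h
        · exact h
        · exact absurd h hβ
      · rcases mul_eq_zero.1 h3 with h | h
        · exact h
        · exact absurd h (inv_ne_zero hβ)
    · rw [S4Y_addl, S4Y_smull, S4Y_smull, S4Y_smulr, S4Y_smulr]
      have h5 : B b a = B a b := by simp [B]; ring
      rw [h5, h0, hself]; ring
    · simp only [S4Y_addl, S4Y_smull]
      ext i
      simp only [Pi.add_apply, Pi.smul_apply, smul_eq_mul]
      field_simp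
      ring
  · refine ⟨α⁻¹ • b, ⟨?_, ?_⟩, fun w => ?_⟩
    · rw [LinearIndependent.pair_iff]
      intro s t hst
      have h1 : (s * α) • a + (s * β + t * α⁻¹) • b = 0 := by
        rw [← hst]; ext i; simp; ring
      obtain ⟨h3, h4⟩ := hli _ _ h1
      have hs : s = 0 := by
        rcases mul_eq_zero.1 h3 with h | h
        · exact h
        · exact absurd h hα
      rw [hs, zero_mul, zero_add] at h4
      refine ⟨hs, ?_⟩
      rcases mul_eq_zero.1 h4 with h | h
      · exact h
      · exact absurd h (inv_ne_zero hα)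
    · rw [S4Y_addl, S4Y_smull, S4Y_smull, S4Y_smulr, S4Y_smulr, h0, hself]; ring
    · simp only [S4Y_addl, S4Y_smull]
      ext i
      simp only [Pi.add_apply, Pi.smul_apply, smul_eq_mul]
      field_simp
      linear_combination (-(β * B b w * b i)) * h2

end

theorem S4Y (hS4B : S4B_stmt) (hS4X : S4X_stmt) : S4Y_stmt := by
  intro F _ _ _ x hx
  obtain ⟨v, -, hv, -, -⟩ := id hx
  obtain ⟨hself, hsymm, -, -, hT, -, -, -, -, -, -, hpl⟩ := hS4B F
  have h2 : (2 : F) = 0 := CharTwo.two_eq_zero
  obtain ⟨t, ht, htt⟩ := hT v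
  obtain ⟨a, b, hab, hA⟩ := (hS4X F x hx).1 v t hv ht
  have hti : t⁻¹ = t := inv_eq_of_mul_eq_one_left htt
  set s : SG F := x t with hs
  have hy : ∀ w, ((s * t⁻¹ : SG F) : (Fin 4 → F) ≃ₗ[F] (Fin 4 → F)) w =
      (w + B v w • v) + (B b (w + B v w • v) • a + B a (w + B v w • v) • b) := by
    intro w
    rw [hti, Subgroup.coe_mul, LinearEquiv.mul_apply, ht w, hA]
  by_cases hcase : B a v = 0 ∧ B b v = 0
  · have hvS : v ∈ Sn a b := hpl a b v hab hcase.1 hcase.2
    obtain ⟨b', hb', hN⟩ := S4Y_base h2 hself hab hv hvS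
    refine ⟨t, 1, v + b', b', ⟨?_, ?_⟩, fun w => ?_⟩
    · have h3 := hb'.1
      rw [LinearIndependent.pair_iff] at h3 ⊢
      intro c d hcd
      have h4 : c • v + (c + d) • b' = 0 := by
        rw [← hcd]; ext i; simp; ring
      obtain ⟨h5, h6⟩ := h3 _ _ h4
      refine ⟨h5, ?_⟩
      rw [h5, zero_add] at h6; exact h6
    · rw [S4Y_addl, hb'.2, hself, add_zero]
    · rw [pow_one, hy w, S4Y_addr, S4Y_addr, S4Y_smulr, S4Y_smulr, hcase.1, hcase.2, mul_zero, add_zero, add_zero,
        hN w, S4Y_addl]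
      ext i
      simp only [Pi.add_apply, Pi.smul_apply, smul_eq_mul]
      linear_combination (-(B b' w * b' i)) * h2
  · set u : Fin 4 → F := B b v • a + B a v • b with hu
    have hab0 : B a b = 0 := hab.2
    have hba0 : B b a = 0 := by rw [hsymm]; exact hab0
    have hau : B a u = 0 := by
      rw [hu, S4Y_addr, S4Y_smulr, S4Y_smulr, hself, hab0]; ring
    have hbu : B b u = 0 := by
      rw [hu, S4Y_addr, S4Y_smulr, S4Y_smulr, hself, hba0]; ring
    have hvu : B v u = 0 := by
      rw [hu, S4Y_addr, S4Y_smulr, S4Y_smulr, hsymm v a, hsymm v b]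
      linear_combination (B b v * B a v) * h2
    have huw : ∀ w, B u w = B b v * B a w + B a v * B b w := by
      intro w; rw [hu, S4Y_addl, S4Y_smull, S4Y_smull]
    have hli := hab.1
    rw [LinearIndependent.pair_iff] at hli
    have hu0 : u ≠ 0 := by
      intro h
      obtain ⟨h3, h4⟩ := hli _ _ h
      exact hcase ⟨h4, h3⟩
    refine ⟨t, 2, v, u + v, ⟨?_, ?_⟩, fun w => ?_⟩
    · rw [LinearIndependent.pair_iff]
      intro c d hcd
      have h4 : (c + d) • v + d • u = 0 := by
        rw [← hcd]; ext i; simp; ring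
      have h5 : c + d = 0 := by
        by_contra hne
        have ha : B a ((c + d) • v + d • u) = 0 := by rw [h4]; simp [B]
        have hb : B b ((c + d) • v + d • u) = 0 := by rw [h4]; simp [B]
        rw [S4Y_addr, S4Y_smulr, S4Y_smulr, hau, mul_zero, add_zero] at ha
        rw [S4Y_addr, S4Y_smulr, S4Y_smulr, hbu, mul_zero, add_zero] at hb
        exact hcase ⟨(mul_eq_zero.1 ha).resolve_left hne, (mul_eq_zero.1 hb).resolve_left hne⟩
      rw [h5, zero_smul, zero_add] at h4
      have h6 : d = 0 := (smul_eq_zero.1 h4).resolve_right hu0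
      rw [h6, add_zero] at h5
      exact ⟨h5, h6⟩
    · rw [S4Y_addr, hvu, hself, add_zero]
    · have hy' : ∀ w, ((s * t⁻¹ : SG F) : (Fin 4 → F) ≃ₗ[F] (Fin 4 → F)) w =
          w + B v w • v + (B b w • a + B a w • b) + B v w • u := by
        intro w
        rw [hy w, S4Y_addr, S4Y_addr, S4Y_smulr, S4Y_smulr, hu]
        ext i
        simp only [Pi.add_apply, Pi.smul_apply, smul_eq_mul]
        ring
      rw [pow_two, Subgroup.coe_mul, LinearEquiv.mul_apply, hy' w, hy']
      set y : Fin 4 → F := w + B v w • v + (B b w • a + B a w • b) + B v w • u with hyd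
      have e1 : B v y = B v w + B u w := by
        rw [hyd]
        simp only [S4Y_addr, S4Y_smulr, hself, hvu, hsymm v a, hsymm v b, huw]
        ring
      have e2 : B a y = B a w + B v w * B a v := by
        rw [hyd]
        simp only [S4Y_addr, S4Y_smulr, hself, hau, hab0]
        ring
      have e3 : B b y = B b w + B v w * B b v := by
        rw [hyd]
        simp only [S4Y_addr, S4Y_smulr, hself, hbu, hba0]
        ring
      rw [e1, e2, e3, S4Y_addl u v w]
      ext i
      have hui : u i = B b v * a i + B a v * b i := by rw [hu]; simp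
      rw [hyd]
      simp only [Pi.add_apply, Pi.smul_apply, smul_eq_mul]
      linear_combination (B b w * a i + B a w * b i + B v w * u i) * h2 - (B v w) * hui

end Pool.Agent.SP4
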